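import Pool.Agent.R630.PL.Retract

set_option autoImplicit false

/-!
# MP_77349f_al, Q1: yes, stabilizers in projective piles are retracts

Let `(G, T)` be a projective pile with `G` topologically finitely generated, and `t` a point
of `T`. For an open normal subgroup `V` of `G_t` choose an open normal subgroup `U` of `G` with
`U ∩ G_t ≤ V`; put `A = G / U`, `Q = G_t / V`, let `A_0` be the image of `G_t` in `A`, and let `X`
be the coset space of `A_0` together with one further point (fixed by `A`). A clopen neighbourhood
of `t` meeting its translates only under `U G_t` defines a morphism `(G, T) → (A, X)`. Solving the
rigid embedding problem `(A × Q, Y) → (A, X)`, where the stabilizer over the base point is the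
graph of `A_0 → Q` and the one over the additional point is `A × 1`, we get a homomorphism
`G → Q` extending the projection `G_t → Q` (up to conjugation in `Q`). As `G` is finitely
generated, there are finitely many such extensions for each `V`, and compactness gives the
retraction `G → G_t`.
-/

universe u

namespace Pool.Agent.Results.MP_77349f_al.StabilizersAreRetracts

open Pool.Agent.R630.PL

/-- Let `P = (G, T)` be a projective pile (solutions exist for every finite rigid embedding
problem) such that `G` is topologically generated by a finite set `S`. Then for every point `t` of
`T` there is a continuous homomorphism `r : G → G_t` with `r h = h` for all `h` in the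
stabilizer `G_t`. -/
theorem result (P : Pile.{u}) (hP : P.Projective) (S : Finset P.G)
    (hS : (Subgroup.closure (S : Set P.G)).topologicalClosure = ⊤) (t : P.T) :
    ∃ r : P.G →ₜ* P.stab t, ∀ h : P.stab t, r (h : P.G) = h :=
  P.exists_retract hP S hS t

end Pool.Agent.Results.MP_77349f_al.StabilizersAreRetracts
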